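import Pool.Agent.Y343.LC.Man

/-!
The map from the compactly supported cohomology of the quotient to the cohomology of the group.
-/

set_option autoImplicit false

namespace Pool.Agent.Y343.LC

open CategoryTheory Representation
open Pool.Agent.Y343.LB (l2 mem_l2 C0 FS l2_C0 h1_sub Phi_range Phi_l2 l2_coset)

noncomputable section

variable {V : Type}

section

variable (K : Cx V) (H : Type) [Group H] [MulAction H V] (hA : ProperAction K H) (h1 : H1Zero K)
  (v0 : V)

include hA h1 in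
/-- the primitive with values in `ℓ²(H)` -/
theorem exists_prim (c : Z1c K H) : ∃ F : V → L2 H, F v0 = 0 ∧ IsD K F (val c) := by
  obtain ⟨φ0, hφ0⟩ := h1 (sc c) (sc_closed c)
  have hadj : ∀ u v, K.graph.Adj u v → ∀ x : H, K.graph.Adj (x⁻¹ • u) (x⁻¹ • v) :=
    fun u v h x => hA.adj x⁻¹ u v h
  have hval : ∀ u v, K.graph.Adj u v → ∀ x : H,
      ev (val c u v) x = φ0 (x⁻¹ • v) - φ0 (x⁻¹ • u) := fun u v h x => by
    rw [val_sc c u v x]
    exact hφ0 _ _ (hadj u v h x)
  have hp := path_l2 K hA.conn H φ0 (fun u v h => by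
    have h2 := ev_l2 (val c u v)
    rwa [show ev (val c u v) = fun x : H => φ0 (x⁻¹ • v) - φ0 (x⁻¹ • u) from
      funext (hval u v h)] at h2) v0
  refine ⟨fun v => mk (fun x => φ0 (x⁻¹ • v) - φ0 (x⁻¹ • v0)) (hp v), ?_, fun u v h => ?_⟩
  · refine ev_ext fun x => ?_
    show φ0 (x⁻¹ • v0) - φ0 (x⁻¹ • v0) = 0
    rw [sub_self]
  · refine ev_ext fun x => ?_
    show ev (val c u v) x = (φ0 (x⁻¹ • v) - φ0 (x⁻¹ • v0)) - (φ0 (x⁻¹ • u) - φ0 (x⁻¹ • v0))
    rw [hval u v h x]
    ring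

/-- the primitive -/
def prim (c : Z1c K H) : V → L2 H := Classical.choose (exists_prim K H hA h1 v0 c)

theorem prim_zero (c : Z1c K H) : prim K H hA h1 v0 c v0 = 0 :=
  (Classical.choose_spec (exists_prim K H hA h1 v0 c)).1

theorem prim_D (c : Z1c K H) : IsD K (prim K H hA h1 v0 c) (val c) :=
  (Classical.choose_spec (exists_prim K H hA h1 v0 c)).2

theorem prim_uniq (c : Z1c K H) (F : V → L2 H) (h0 : F v0 = 0)
    (hF : IsD K F (val c)) (v : V) : F v = prim K H hA h1 v0 c v := by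
  have h2 := conn_const K hA.conn (fun v => F v - prim K H hA h1 v0 c v) (fun u v h => by
    have e1 := hF u v h
    have e2 := prim_D K H hA h1 v0 c u v h
    rw [e1] at e2
    show F u - prim K H hA h1 v0 c u = F v - prim K H hA h1 v0 c v
    rw [sub_eq_sub_iff_add_eq_add] at e2 ⊢
    rw [add_comm, ← e2, add_comm]) v v0
  have h3 : F v - prim K H hA h1 v0 c v = F v0 - prim K H hA h1 v0 c v0 := h2
  rw [h0, prim_zero, sub_zero, sub_eq_zero] at h3
  exact h3

theorem lt_cancel {Γ : Type} [Group Γ] (g : Γ) (f : L2 Γ) : lt g (lt g⁻¹ f) = f := by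
  refine ev_ext fun x => ?_
  rw [lt_apply, lt_apply, inv_inv, mul_inv_cancel_left]

/-- equivariance of the primitive up to constants -/
theorem prim_smul (c : Z1c K H) (g : H) (v : V) :
    prim K H hA h1 v0 c (g • v) = lt g (prim K H hA h1 v0 c v) +
      prim K H hA h1 v0 c (g • v0) := by
  have h2 := prim_uniq K H hA h1 v0 c
    (fun v => lt g⁻¹ (prim K H hA h1 v0 c (g • v) - prim K H hA h1 v0 c (g • v0)))
    (by show lt g⁻¹ (_ - _) = 0
        rw [sub_self, map_zero])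
    (fun u v h => by
      have e1 := prim_D K H hA h1 v0 c (g • u) (g • v) (hA.adj g u v h)
      have e2 := (val_mem c).2.1 g u v
      show val c u v = lt g⁻¹ (prim K H hA h1 v0 c (g • v) - prim K H hA h1 v0 c (g • v0)) -
        lt g⁻¹ (prim K H hA h1 v0 c (g • u) - prim K H hA h1 v0 c (g • v0))
      rw [← map_sub, sub_sub_sub_cancel_right, ← e1, e2]
      have e3 := lt_cancel g⁻¹ (val c u v)
      rw [inv_inv] at e3
      exact e3.symm) v
  have h3 : lt g (lt g⁻¹ (prim K H hA h1 v0 c (g • v) - prim K H hA h1 v0 c (g • v0))) =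
      lt g (prim K H hA h1 v0 c v) := congrArg (lt g) h2
  rw [lt_cancel] at h3
  rw [← h3, sub_add_cancel]

/-- the cocycle of a closed cochain -/
def coc (c : Z1c K H) (g : H) : L2 H := prim K H hA h1 v0 c (g • v0)

theorem coc_mul (c : Z1c K H) (g h : H) :
    coc K H hA h1 v0 c (g * h) = lt g (coc K H hA h1 v0 c h) + coc K H hA h1 v0 c g := by
  show prim K H hA h1 v0 c ((g * h) • v0) = _
  rw [mul_smul]
  exact prim_smul K H hA h1 v0 c g (h • v0)

theorem coc_add (c d : Z1c K H) (g : H) :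
    coc K H hA h1 v0 (c + d) g = coc K H hA h1 v0 c g + coc K H hA h1 v0 d g := by
  refine (prim_uniq K H hA h1 v0 (c + d)
    (fun v => prim K H hA h1 v0 c v + prim K H hA h1 v0 d v) ?_ ?_ (g • v0)).symm
  · show prim K H hA h1 v0 c v0 + prim K H hA h1 v0 d v0 = 0
    rw [prim_zero, prim_zero, add_zero]
  · intro u v h
    show val c u v + val d u v = (prim K H hA h1 v0 c v + prim K H hA h1 v0 d v) -
      (prim K H hA h1 v0 c u + prim K H hA h1 v0 d u)
    rw [prim_D K H hA h1 v0 c u v h, prim_D K H hA h1 v0 d u v h]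
    abel

theorem coc_op (T : VN H) (c : Z1c K H) (g : H) :
    coc K H hA h1 v0 (opZ K H T c) g = op T (coc K H hA h1 v0 c g) := by
  refine (prim_uniq K H hA h1 v0 (opZ K H T c) (fun v => op T (prim K H hA h1 v0 c v)) ?_ ?_
    (g • v0)).symm
  · show op T (prim K H hA h1 v0 c v0) = 0
    rw [prim_zero, map_zero]
  · intro u v h
    show op T (val c u v) = op T (prim K H hA h1 v0 c v) - op T (prim K H hA h1 v0 c u)
    rw [prim_D K H hA h1 v0 c u v h, map_sub]

/-- the cocycle of a closed cochain, as an element of the module of cocycles -/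
def Jz (c : Z1c K H) : groupCohomology.cocycles₁ (L2Rep H) :=
  ⟨coc K H hA h1 v0 c, (groupCohomology.mem_cocycles₁_iff _).2 (coc_mul K H hA h1 v0 c)⟩

end

/-- the class of a cocycle -/
def clsH {Γ : Type} [Group Γ] (z : groupCohomology.cocycles₁ (L2Rep Γ)) : HC Γ 1 :=
  (groupCohomology.H1π (L2Rep Γ)).hom z

theorem clsH_eq_zero_iff {Γ : Type} [Group Γ] (z : groupCohomology.cocycles₁ (L2Rep Γ)) :
    clsH z = 0 ↔ ∃ η : L2 Γ, ∀ g : Γ, z.1 g = lt g η - η := by
  have h := groupCohomology.H1π_eq_zero_iff z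
  constructor
  · intro h0
    obtain ⟨η, hη⟩ := h.1 h0
    exact ⟨η, fun g => (congrFun hη g).symm⟩
  · rintro ⟨η, hη⟩
    exact h.2 ⟨η, funext fun g => (hη g).symm⟩

theorem clsH_add {Γ : Type} [Group Γ] (z z' : groupCohomology.cocycles₁ (L2Rep Γ)) :
    clsH (z + z') = clsH z + clsH z' := map_add (groupCohomology.H1π (L2Rep Γ)).hom z z'

theorem actC_aux {Γ : Type} [Group Γ] (T : VN Γ) (z : groupCohomology.cocycles₁ (L2Rep Γ)) :
    (groupCohomology.map (MonoidHom.id Γ) (endo T) 1).hom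
      ((groupCohomology.H1π (L2Rep Γ)).hom z) =
      (groupCohomology.H1π (L2Rep Γ)).hom
        ((groupCohomology.mapCocycles₁ (MonoidHom.id Γ) (endo T)).hom z) := by
  have h := congrArg (fun f => f.hom z)
    (groupCohomology.H1π_comp_map (MonoidHom.id Γ) (A := L2Rep Γ) (B := L2Rep Γ) (endo T))
  exact h

theorem actC_cls {Γ : Type} [Group Γ] (T : VN Γ) (z : groupCohomology.cocycles₁ (L2Rep Γ)) :
    actC 1 T (clsH z) =
      clsH ((groupCohomology.mapCocycles₁ (MonoidHom.id Γ) (endo T)).hom z) := actC_aux T z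

section

variable (K : Cx V) (H : Type) [Group H] [MulAction H V] (hA : ProperAction K H) (h1 : H1Zero K)
  (v0 : V)

theorem Jz_add (c d : Z1c K H) :
    Jz K H hA h1 v0 (c + d) = Jz K H hA h1 v0 c + Jz K H hA h1 v0 d :=
  Subtype.ext (funext fun g => coc_add K H hA h1 v0 c d g)

theorem Jz_act (T : VN H) (c : Z1c K H) :
    Jz K H hA h1 v0 (opZ K H T c) =
      (groupCohomology.mapCocycles₁ (MonoidHom.id H) (endo T)).hom (Jz K H hA h1 v0 c) :=
  Subtype.ext (funext fun g => coc_op K H hA h1 v0 T c g)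

/-- the cohomology class of the cocycle of a closed cochain -/
def Jc : Z1c K H →+ HC H 1 :=
  AddMonoidHom.mk' (fun c => clsH (Jz K H hA h1 v0 c)) (fun c d => by
    rw [Jz_add, clsH_add])

theorem Jc_apply (c : Z1c K H) : Jc K H hA h1 v0 c = clsH (Jz K H hA h1 v0 c) := rfl

theorem Jc_eq_zero (c : Z1c K H) : Jc K H hA h1 v0 c = 0 ↔
    ∃ η : L2 H, ∀ g : H, coc K H hA h1 v0 c g = lt g η - η := by
  rw [Jc_apply, clsH_eq_zero_iff]
  exact Iff.rfl

theorem B1c_le : B1c K H ≤ (Jc K H hA h1 v0).ker := by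
  rintro c ⟨f, hf, hc⟩
  refine (Jc_eq_zero K H hA h1 v0 c).2 ⟨f v0, fun g => ?_⟩
  show prim K H hA h1 v0 c (g • v0) = _
  rw [← prim_uniq K H hA h1 v0 c (fun v => f v - f v0) (sub_self _) (fun u v h => by
    show val c u v = (f v - f v0) - (f u - f v0)
    rw [hc u v h, sub_sub_sub_cancel_right]) (g • v0)]
  show f (g • v0) - f v0 = lt g (f v0) - f v0
  rw [hf.1 g v0]

/-- the natural map `H¹_c(K / H; ℓ²H) → H¹(H; ℓ²H)` -/
def Jmap : H1c K H →+ HC H 1 :=
  QuotientAddGroup.lift (B1c K H) (Jc K H hA h1 v0) (fun c hc => B1c_le K H hA h1 v0 hc)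

/-- the class of a closed cochain -/
def cls (c : Z1c K H) : H1c K H := QuotientAddGroup.mk c

theorem cls_surj (x : H1c K H) : ∃ c, cls K H c = x := QuotientAddGroup.mk_surjective x

theorem cls_eq_zero (c : Z1c K H) : cls K H c = 0 ↔ c ∈ B1c K H :=
  QuotientAddGroup.eq_zero_iff c

theorem Jmap_cls (c : Z1c K H) : Jmap K H hA h1 v0 (cls K H c) = Jc K H hA h1 v0 c := rfl

theorem actK_cls (T : VN H) (c : Z1c K H) :
    actK K H T (cls K H c) = cls K H (opZ K H T c) := rfl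

/-- if the cocycle is a coboundary then `c` is a compactly supported coboundary -/
theorem of_cobound (h1c : H1cZero K) [Infinite H] (c : Z1c K H) (η : L2 H)
    (hη : ∀ g : H, coc K H hA h1 v0 c g = lt g η - η) : c ∈ B1c K H := by
  let φ : V → ℂ := fun v => ev (prim K H hA h1 v0 c v) 1
  have hφD : IsD K φ (sc c) := by
    intro u v h
    show ev (val c u v) 1 = ev (prim K H hA h1 v0 c v) 1 - ev (prim K H hA h1 v0 c u) 1
    rw [prim_D K H hA h1 v0 c u v h]
    rfl
  have hval : ∀ (x : H) (v : V),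
      φ (x⁻¹ • v) = ev (prim K H hA h1 v0 c v) x + φ (x⁻¹ • v0) := by
    intro x v
    show ev (prim K H hA h1 v0 c (x⁻¹ • v)) 1 = _
    rw [prim_smul K H hA h1 v0 c x⁻¹ v]
    show ev (prim K H hA h1 v0 c v) ((x⁻¹)⁻¹ * 1) + ev (prim K H hA h1 v0 c (x⁻¹ • v0)) 1 = _
    rw [inv_inv, mul_one]
  have hv0 : ∀ x : H, φ (x⁻¹ • v0) - (- ev η 1) = ev η x := by
    intro x
    have h2 : prim K H hA h1 v0 c (x⁻¹ • v0) = lt x⁻¹ η - η := hη x⁻¹
    show ev (prim K H hA h1 v0 c (x⁻¹ • v0)) 1 - (- ev η 1) = ev η x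
    rw [h2]
    show (ev η ((x⁻¹)⁻¹ * 1) - ev η 1) - (- ev η 1) = ev η x
    rw [inv_inv, mul_one]
    ring
  refine core K H hA h1c c φ hφD (- ev η 1) (fun v => ?_)
  have h2 := (l2 H).add_mem (ev_l2 (prim K H hA h1 v0 c v)) (ev_l2 η)
  have h3 : ev (prim K H hA h1 v0 c v) + ev η = fun x : H => φ (x⁻¹ • v) - (- ev η 1) := by
    funext x
    show ev (prim K H hA h1 v0 c v) x + ev η x = φ (x⁻¹ • v) - (- ev η 1)
    rw [hval x v, ← hv0 x]
    ring
  rwa [h3] at h2

theorem Jmap_inj (h1c : H1cZero K) [Infinite H] (x : H1c K H)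
    (hx : Jmap K H hA h1 v0 x = 0) : x = 0 := by
  obtain ⟨c, rfl⟩ := cls_surj K H x
  rw [cls_eq_zero]
  rw [Jmap_cls, Jc_eq_zero] at hx
  obtain ⟨η, hη⟩ := hx
  exact of_cobound K H hA h1 v0 h1c c η hη

theorem Jmap_act (T : VN H) (x : H1c K H) :
    Jmap K H hA h1 v0 (actK K H T x) = actC 1 T (Jmap K H hA h1 v0 x) := by
  obtain ⟨c, rfl⟩ := cls_surj K H x
  rw [actK_cls, Jmap_cls, Jmap_cls, Jc_apply, Jc_apply, actC_cls, ← Jz_act]

end

end

end Pool.Agent.Y343.LC
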