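import Pool.Agent.Y343.LC.Jmap

/-!
The theorem on the `L²`-Betti numbers of open aspherical manifolds in the top degrees.
-/

set_option autoImplicit false

namespace Pool.Agent.Y343.LC

open CategoryTheory Representation
open Pool.Agent.Y343.LB (l2 mem_l2 C0 FS l2_C0 h1_sub Phi_range Phi_l2 l2_coset)

noncomputable section

section

variable {Γ : Type} [Group Γ] {M N : Type} [AddCommGroup M] [AddCommGroup N]

/-- monotonicity of the dimension under injections that are compatible with the actions up to a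
trace-preserving automorphism -/
theorem L2dim_mono (act : VN Γ → M → M) (act' : VN Γ → N → N) (θ : VN Γ ≃+* VN Γ)
    (hθ : ∀ T, tr (θ T) = tr T) (J : M →+ N)
    (hJ : ∀ x, J x = 0 → x = 0) (h : ∀ T x, J (act T x) = act' (θ T) (J x)) :
    L2dim act ≤ L2dim act' := by
  refine sSup_le_sSup ?_
  rintro t ⟨m, p, y, h1, h2, h3, h4⟩
  refine ⟨m, fun i j => θ (p i j), fun i => J (y i), fun i k => ?_, fun i => ?_, fun r hr => ?_, ?_⟩
  · show ∑ j, θ (p i j) * θ (p j k) = θ (p i k)
    rw [← h1 i k, map_sum]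
    exact Finset.sum_congr rfl fun j _ => (map_mul θ _ _).symm
  · calc J (y i) = J (∑ j, act (p i j) (y j)) := congrArg J (h2 i)
      _ = ∑ j, J (act (p i j) (y j)) := map_sum J _ _
      _ = ∑ j, act' (θ (p i j)) (J (y j)) := Finset.sum_congr rfl fun j _ => h _ _
  · have h5 : ∑ i, act (θ.symm (r i)) (y i) = 0 := by
      refine hJ _ ?_
      rw [map_sum]
      calc ∑ i, J (act (θ.symm (r i)) (y i)) = ∑ i, act' (r i) (J (y i)) :=
            Finset.sum_congr rfl fun j _ => by rw [h, RingEquiv.apply_symm_apply]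
        _ = 0 := hr
    intro k
    have h7 := congrArg θ (h3 _ h5 k)
    rw [map_sum, map_zero] at h7
    rw [← h7]
    refine Finset.sum_congr rfl fun i _ => ?_
    rw [map_mul, RingEquiv.apply_symm_apply]
  · rw [h4]
    have h10 : ∑ i, tr (θ (p i i)) = ∑ i, tr (p i i) :=
      Finset.sum_congr rfl fun i _ => hθ _
    rw [h10]

theorem L2dim_nonneg (act : VN Γ → M → M) : 0 ≤ L2dim act := by
  refine le_sSup ⟨0, Fin.elim0, Fin.elim0, fun i => i.elim0, fun i => i.elim0,
    fun r _ k => k.elim0, by simp⟩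

theorem L2dim_subsingleton [Subsingleton M] (act : VN Γ → M → M) : L2dim act = 0 := by
  refine le_antisymm (sSup_le ?_) (L2dim_nonneg act)
  rintro t ⟨m, p, y, h1, h2, h3, rfl⟩
  have hp : ∀ i k, p i k = 0 := by
    intro i k
    have h4 := h3 (Pi.single i 1) (Subsingleton.elim _ _) k
    rw [Finset.sum_eq_single i] at h4
    · rwa [Pi.single_eq_same, one_mul] at h4
    · intro j _ hj
      rw [Pi.single_eq_of_ne hj, zero_mul]
    · intro hi
      exact absurd (Finset.mem_univ i) hi
  have h6 : ∑ i : Fin m, tr (p i i) = 0 := by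
    refine Finset.sum_eq_zero fun i _ => ?_
    rw [hp i i]
    rfl
  rw [h6]
  simp

end

variable {V : Type}

theorem endRest_of_endSN (K : Cx V) (H : Type) [Group H] [MulAction H V] (h : EndSN K H) :
    EndRest K H := by
  intro F
  obtain ⟨W, hW, hL⟩ := h F
  refine ⟨W, hW, fun b hb hbL => ⟨0, fun g => ?_⟩⟩
  rw [map_zero, sub_zero]
  have hinv : ∀ l : H, Fixes W l ∧ Fixes W (g⁻¹ * l * g) → lt l (b g) = b g := by
    rintro l ⟨h1, h2⟩
    have e1 := hb l g
    have e2 := hb g (g⁻¹ * l * g)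
    rw [hbL l h1, add_zero] at e1
    rw [hbL _ h2, map_zero, zero_add] at e2
    rw [← e1, ← e2]
    congr 1
    group
  refine ev_ext fun x => ?_
  show ev (b g) x = 0
  by_contra hne
  have hfin := l2_C0 (ev_l2 (b g)) ‖ev (b g) x‖ (norm_pos_iff.2 hne)
  refine hL g ((hfin.preimage (f := fun l : H => l⁻¹ * x) ?_).subset ?_)
  · intro l _ l' _ hll
    exact inv_injective (mul_right_cancel hll)
  · intro l hl
    have h3 := congrArg (fun f : L2 H => ev f x) (hinv l hl)
    have h4 : ev (b g) (l⁻¹ * x) = ev (b g) x := h3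
    show ‖ev (b g) x‖ ≤ ‖ev (b g) (l⁻¹ * x)‖
    rw [h4]

theorem case_end (K : Cx V) (H : Type) [Group H] [MulAction H V] [Infinite H]
    (hA : ProperAction K H) (h1 : H1Zero K) (h1c : H1cZero K) (hE : EndRest K H)
    (c : Z1c K H) : c ∈ B1c K H := by
  obtain ⟨F, hF⟩ := (val_mem c).2.2
  obtain ⟨W, ⟨⟨v1, hv1⟩, hWc, hWF⟩, hb⟩ := hE F
  -- the primitive is constant on `W`
  have hconst : ∀ v ∈ W, prim K H hA h1 v1 c v = 0 := by
    intro v hv
    obtain ⟨p⟩ := hWc.preconnected ⟨v, hv⟩ ⟨v1, hv1⟩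
    have key : ∀ (a b : W) (p : (K.graph.induce W).Walk a b),
        prim K H hA h1 v1 c a = prim K H hA h1 v1 c b := by
      intro a b p
      induction p with
      | nil => rfl
      | @cons a b c' hadj _ ih =>
        rw [← ih]
        have hadj' : K.graph.Adj (a : V) (b : V) := hadj
        have e1 := prim_D K H hA h1 v1 c _ _ hadj'
        have e2 : val c (a : V) (b : V) = 0 := by
          by_contra hne
          exact hWF a a.2 (hF _ _ hne)
        rw [e2] at e1
        exact (sub_eq_zero.1 e1.symm).symm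
    rw [key _ _ p]
    exact prim_zero K H hA h1 v1 c
  obtain ⟨η, hη⟩ := hb (coc K H hA h1 v1 c) (coc_mul K H hA h1 v1 c)
    (fun l hl => hconst _ ((hl v1).2 hv1))
  exact of_cobound K H hA h1 v1 h1c c η hη

/-- **Main theorem.** -/
theorem main (K : Cx V) (H : Type) [Group H] [MulAction H V] [Infinite H]
    (hA : ProperAction K H) (h1 : H1Zero K) (h1c : H1cZero K) :
    H0cTriv K H ∧ Embeds K H ∧
    ((Covers K H ∨ EndRest K H ∨ EndSN K H) → H1cTriv K H) ∧
    ∀ n : ℕ, DualL2 K H n →
      (∀ j, n ≤ j → b2 H j = 0) ∧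
      b2 H (n - 1) ≤ b2co H 1 ∧
      ((b2co H 1 = 0 ∨ Covers K H ∨ EndRest K H ∨ EndSN K H) →
        ∀ j, n - 1 ≤ j → b2 H j = 0) := by
  obtain ⟨v0⟩ := hA.conn.nonempty
  have hJ : Embeds K H :=
    ⟨Jmap K H hA h1 v0, (injective_iff_map_eq_zero _).2 (fun x hx => Jmap_inj K H hA h1 v0 h1c x hx),
      Jmap_act K H hA h1 v0⟩
  have hvan : (Covers K H ∨ EndRest K H ∨ EndSN K H) → H1cTriv K H := by
    intro hv
    refine subsingleton_of_forall_eq 0 (fun x => ?_)
    obtain ⟨c, rfl⟩ := cls_surj K H x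
    rw [cls_eq_zero]
    rcases hv with hv | hv | hv
    · exact case_big K H hA h1 h1c hv c
    · exact case_end K H hA h1 h1c hv c
    · exact case_end K H hA h1 h1c (endRest_of_endSN K H hv) c
  refine ⟨h0c_zero K H hA, hJ, hvan, fun n hD => ?_⟩
  have htop : ∀ j, n ≤ j → b2 H j = 0 := by
    intro j hj
    rcases hj.lt_or_eq with h | h
    · have := hD.above j h
      exact L2dim_subsingleton _
    · subst h
      obtain ⟨e⟩ := hD.top
      have : Subsingleton (HH H n) := e.toEquiv.subsingleton_congr.2 (h0c_zero K H hA)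
      exact L2dim_subsingleton _
  have hle : b2 H (n - 1) ≤ b2co H 1 := by
    obtain ⟨J, hJ1, hJ2⟩ := hJ
    obtain ⟨θ, e, hθ, he⟩ := hD.next
    refine L2dim_mono (actH (n - 1)) (actC 1) θ hθ (J.comp e.toAddMonoidHom) (fun x hx => ?_)
      (fun T x => ?_)
    · have h2 : J (e x) = 0 := hx
      have h3 : e x = 0 := hJ1 (h2.trans (map_zero J).symm)
      exact (AddEquiv.map_eq_zero_iff e).1 h3
    · show J (e (actH (n - 1) T x)) = actC 1 (θ T) (J (e x))
      rw [he, hJ2]
  refine ⟨htop, hle, fun hv j hj => ?_⟩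
  by_cases hjn : n ≤ j
  · exact htop j hjn
  have hj' : j = n - 1 := by omega
  subst hj'
  rcases hv with hv | hv
  · exact le_antisymm (hle.trans (le_of_eq hv)) (L2dim_nonneg _)
  · obtain ⟨_, e, -⟩ := hD.next
    have : Subsingleton (HH H (n - 1)) := e.toEquiv.subsingleton_congr.2 (hvan hv)
    exact L2dim_subsingleton _

end

end Pool.Agent.Y343.LC
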