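import Pool.Agent.Y343.LC.Van

/-!
Closed compactly supported cochains whose primitive is square-summable on the orbits.
-/

set_option autoImplicit false

namespace Pool.Agent.Y343.LC

open CategoryTheory Representation
open Pool.Agent.Y343.LB (l2 mem_l2 C0 FS l2_C0 h1_sub Phi_range Phi_l2 l2_coset)

noncomputable section

variable {V : Type}

/-- the scalar component of a cochain -/
def sc {K : Cx V} {H : Type} [Group H] [MulAction H V] (c : Z1c K H) (u v : V) : ℂ :=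
  ev (val c u v) 1

theorem sc_closed {K : Cx V} {H : Type} [Group H] [MulAction H V] (c : Z1c K H) :
    Closed1 K (sc c) := by
  obtain ⟨⟨h1, h2, h3⟩, -, -⟩ := val_mem c
  refine ⟨fun u v h => ?_, fun u v => ?_, fun u v w h => ?_⟩
  · show ev (val c u v) 1 = 0
    rw [h1 u v h]
    rfl
  · show ev (val c v u) 1 = - ev (val c u v) 1
    rw [h2 u v]
    rfl
  · show ev (val c u v) 1 + ev (val c v w) 1 = ev (val c u w) 1
    rw [← h3 u v w h]
    rfl

theorem val_sc {K : Cx V} {H : Type} [Group H] [MulAction H V] (c : Z1c K H) (u v : V) (x : H) :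
    ev (val c u v) x = sc c (x⁻¹ • u) (x⁻¹ • v) := by
  have h := (val_mem c).2.1 x⁻¹ u v
  show ev (val c u v) x = ev (val c (x⁻¹ • u) (x⁻¹ • v)) 1
  rw [h, lt_apply, inv_inv, mul_one]

/-- in terms of the larger group, the differences of the primitive are square-summable -/
theorem big_l2 (K : Cx V) (H : Type) [Group H] [MulAction H V] (c : Z1c K H)
    (G : Type) [Group G] [MulAction G V] (ι : H →* G) (hι : Function.Injective ι)
    (hact : ∀ h (v : V), ι h • v = h • v) (hA : ProperAction K G) (u v : V) :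
    (fun x : G => sc c (x⁻¹ • u) (x⁻¹ • v)) ∈ l2 G := by
  obtain ⟨F, hF⟩ := (val_mem c).2.2
  refine l2_of_FS ι.range _ ?_ ?_
  · -- finitely many cosets
    have hsub : {C : G ⧸ ι.range | ∃ x : G, (x : G ⧸ ι.range) = C ∧
        sc c (x⁻¹ • u) (x⁻¹ • v) ≠ 0} ⊆
        ⋃ y ∈ (F : Set V), {C : G ⧸ ι.range | ∃ x : G, (x : G ⧸ ι.range) = C ∧ x • y = u} := by
      rintro C ⟨x, rfl, hx⟩
      have hne : val c (x⁻¹ • u) (x⁻¹ • v) ≠ 0 := by
        intro h
        apply hx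
        show ev (val c (x⁻¹ • u) (x⁻¹ • v)) 1 = 0
        rw [h]
        rfl
      obtain ⟨h, y, hy, hh⟩ := hF _ _ hne
      simp only [Set.mem_iUnion]
      refine ⟨y, hy, x * ι h, ?_, ?_⟩
      · rw [eq_comm, QuotientGroup.eq, inv_mul_cancel_left]
        exact ⟨h, rfl⟩
      · rw [mul_smul, hact, ← hh, smul_inv_smul]
    refine (Set.Finite.biUnion F.finite_toSet (fun y _ => ?_)).subset hsub
    by_cases hex : ∃ x0 : G, x0 • y = u
    · obtain ⟨x0, hx0⟩ := hex
      refine ((hA.stab y).image (fun s : G => ((x0 * s : G) : G ⧸ ι.range))).subset ?_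
      rintro C ⟨x, rfl, hx⟩
      refine ⟨x0⁻¹ * x, ?_, by simp⟩
      show (x0⁻¹ * x) • y = y
      rw [mul_smul, hx, ← hx0, inv_smul_smul]
    · refine Set.Finite.subset Set.finite_empty ?_
      rintro C ⟨x, -, hx⟩
      exact hex ⟨x, hx⟩
  · intro g
    let e : H ≃ ι.range := (MonoidHom.ofInjective hι).toEquiv
    have h1 : (fun s : H => sc c ((g * ((e s : ι.range) : G))⁻¹ • u)
        ((g * ((e s : ι.range) : G))⁻¹ • v)) = ev (val c (g⁻¹ • u) (g⁻¹ • v)) := by
      funext s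
      rw [val_sc c (g⁻¹ • u) (g⁻¹ • v) s, mul_inv_rev, mul_smul, mul_smul]
      have h2 : ((e s : ι.range) : G)⁻¹ = ι s⁻¹ := by
        rw [map_inv]
        rfl
      rw [h2, hact, hact]
    have h3 := (ev_summable (val c (g⁻¹ • u) (g⁻¹ • v)))
    rw [← h1] at h3
    exact (e.summable_iff (f := fun s : ι.range => ‖sc c ((g * (s : G))⁻¹ • u)
      ((g * (s : G))⁻¹ • v)‖ ^ 2)).1 h3

/-- **Core.** If the primitive of the scalar component of a closed cochain `c` is
square-summable on the orbits after subtraction of a constant, then `c` is a compactly supported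
coboundary. -/
theorem core (K : Cx V) (H : Type) [Group H] [MulAction H V] [Infinite H]
    (hA : ProperAction K H) (h1c : H1cZero K) (c : Z1c K H) (φ0 : V → ℂ)
    (hφ0 : IsD K φ0 (sc c)) (k : ℂ) (hk : ∀ v, (fun x : H => φ0 (x⁻¹ • v) - k) ∈ l2 H) :
    c ∈ B1c K H := by
  obtain ⟨F, hF⟩ := (val_mem c).2.2
  have hadj : ∀ u v, K.graph.Adj u v → ∀ x : H, K.graph.Adj (x⁻¹ • u) (x⁻¹ • v) :=
    fun u v h x => hA.adj x⁻¹ u v h
  let φ : V → ℂ := fun v => φ0 v - k
  have hφ : ∀ u v, K.graph.Adj u v → sc c u v = φ v - φ u := by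
    intro u v h
    rw [hφ0 u v h]
    simp only [φ]
    ring
  have hFφ : ∀ u v, K.graph.Adj u v → φ u ≠ φ v → ∃ h : H, ∃ x ∈ F, u = h • x := by
    intro u v h hne
    refine hF u v (fun h0 => hne ?_)
    have h2 := hφ u v h
    have h4 : sc c u v = 0 := by
      show ev (val c u v) 1 = 0
      rw [h0]
      rfl
    rw [h4] at h2
    exact (sub_eq_zero.1 h2.symm).symm
  have hlev := level_finite K H hA h1c φ F hFφ hk
  obtain ⟨F', hF'⟩ := supp_finite K H hA φ F hFφ hlev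
  refine ⟨fun v => mk (fun x : H => φ (x⁻¹ • v)) (hk v), ⟨fun h v => ?_, F', fun v hv0 => ?_⟩,
    fun u v h => ?_⟩
  · refine ev_ext fun x => ?_
    show φ (x⁻¹ • h • v) = φ ((h⁻¹ * x)⁻¹ • v)
    rw [mul_inv_rev, inv_inv, mul_smul]
  · by_contra hne
    apply hv0
    refine ev_ext fun x => ?_
    show φ (x⁻¹ • v) = 0
    by_contra h0
    obtain ⟨h, y, hy, hh⟩ := hF' _ h0
    refine hne ⟨x * h, y, hy, ?_⟩
    rw [mul_smul, ← hh, smul_inv_smul]
  · refine ev_ext fun x => ?_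
    show ev (val c u v) x = φ (x⁻¹ • v) - φ (x⁻¹ • u)
    rw [val_sc c u v x]
    exact hφ _ _ (hadj u v h x)

/-- the hypothesis for the larger group -/
theorem case_big (K : Cx V) (H : Type) [Group H] [MulAction H V] [Infinite H]
    (hA : ProperAction K H) (h1 : H1Zero K) (h1c : H1cZero K) (hv : Covers K H)
    (c : Z1c K H) : c ∈ B1c K H := by
  obtain ⟨G, _, _, ι, hι, hact, hAG, hv⟩ := hv
  obtain ⟨φ0, hφ0⟩ := h1 (sc c) (sc_closed c)
  have hadj : ∀ u v, K.graph.Adj u v → ∀ x : G, K.graph.Adj (x⁻¹ • u) (x⁻¹ • v) :=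
    fun u v h x => hAG.adj x⁻¹ u v h
  obtain ⟨k, hk⟩ := normalize K hA.conn G hv φ0 (fun u v h => by
    have h2 := big_l2 K H c G ι hι hact hAG u v
    have h3 : (fun x : G => sc c (x⁻¹ • u) (x⁻¹ • v)) =
        fun x : G => φ0 (x⁻¹ • v) - φ0 (x⁻¹ • u) := by
      funext x
      exact hφ0 _ _ (hadj u v h x)
    rwa [h3] at h2)
  refine core K H hA h1c c φ0 hφ0 k (fun v => ?_)
  have h4 : Summable fun x : H => ‖φ0 ((ι x)⁻¹ • v) - k‖ ^ 2 :=
    (mem_l2.1 (hk v)).comp_injective (i := ι) hι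
  have h5 : (fun x : H => φ0 (x⁻¹ • v) - k) = fun x : H => φ0 ((ι x)⁻¹ • v) - k := by
    funext x
    rw [← map_inv, hact]
  rw [h5]
  exact h4

/-- **Vanishing of `H⁰_c(K / H; ℓ²H)`.** -/
theorem h0c_zero (K : Cx V) (H : Type) [Group H] [MulAction H V] [Infinite H]
    (hA : ProperAction K H) : H0cTriv K H := by
  refine subsingleton_of_forall_eq 0 (fun f => ?_)
  apply Subtype.ext
  funext v
  refine ev_ext fun x => ?_
  obtain ⟨⟨h1, -⟩, h2⟩ := f.2
  have hc : ∀ x : H, ev (f.1 v) x = ev (f.1 v) 1 := by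
    intro x
    have h3 : f.1 (x⁻¹ • v) = f.1 v := conn_const K hA.conn f.1 h2 (x⁻¹ • v) v
    rw [h1 x⁻¹ v] at h3
    have h4 := congrArg (fun g : L2 H => ev g 1) h3
    have h5 : ev (f.1 v) ((x⁻¹)⁻¹ * 1) = ev (f.1 v) 1 := h4
    rwa [inv_inv, mul_one] at h5
  show ev (f.1 v) x = 0
  rw [hc x]
  by_contra hne
  have h2 := l2_C0 (ev_l2 (f.1 v)) ‖ev (f.1 v) 1‖ (norm_pos_iff.2 hne)
  have h3 : {x : H | ‖ev (f.1 v) 1‖ ≤ ‖ev (f.1 v) x‖} = Set.univ := by
    ext y
    simp [hc y]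
  rw [h3] at h2
  exact Set.infinite_univ h2

end

end Pool.Agent.Y343.LC
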