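import Mathlib

/-!
Square-summable functions on a group, the group von Neumann algebra, Lueck's extended dimension,
`L²`-Betti numbers, and the compactly supported cohomology, in degrees `0` and `1`, of the quotient
of a simplicial complex by a group, with coefficients in `ℓ²` of the group.
-/

set_option autoImplicit false

namespace Pool.Agent.Y343.LC

open CategoryTheory Representation

noncomputable section

/-! ### The regular representation -/

theorem sum_sq_add {X : Type} {f g : X → ℂ} (hf : Summable fun x => ‖f x‖ ^ 2)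
    (hg : Summable fun x => ‖g x‖ ^ 2) : Summable fun x => ‖(f + g) x‖ ^ 2 := by
  refine Summable.of_nonneg_of_le (fun x => by positivity) (fun x => ?_)
    ((hf.mul_left 2).add (hg.mul_left 2))
  have h1 : ‖f x + g x‖ ≤ ‖f x‖ + ‖g x‖ := norm_add_le _ _
  have h2 : 0 ≤ ‖f x + g x‖ := norm_nonneg _
  have h3 : ‖(f + g) x‖ = ‖f x + g x‖ := rfl
  rw [h3]
  nlinarith [sq_nonneg (‖f x‖ - ‖g x‖)]

theorem sum_sq_smul {X : Type} (c : ℂ) {f : X → ℂ} (hf : Summable fun x => ‖f x‖ ^ 2) :
    Summable fun x => ‖(c • f) x‖ ^ 2 := by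
  have h : ∀ x, ‖(c • f) x‖ ^ 2 = ‖c‖ ^ 2 * ‖f x‖ ^ 2 := by
    intro x
    rw [Pi.smul_apply, norm_smul, mul_pow]
  simp only [h]
  exact hf.mul_left _

theorem sum_sq_zero {X : Type} : Summable fun x => ‖(0 : X → ℂ) x‖ ^ 2 := by
  simp only [Pi.zero_apply, norm_zero, ne_eq, OfNat.ofNat_ne_zero, not_false_eq_true, zero_pow]
  exact summable_zero

/-- the square-summable functions on `X`, as a subspace of all functions -/
def sqs (X : Type) : Submodule ℂ (X → ℂ) where
  carrier := {f | Summable fun x => ‖f x‖ ^ 2}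
  zero_mem' := sum_sq_zero
  add_mem' := sum_sq_add
  smul_mem' := fun c _ hf => sum_sq_smul c hf

/-- `ℓ²(X)` -/
def L2 (X : Type) : Type := sqs X

instance acg (X : Type) : AddCommGroup (L2 X) := Submodule.addCommGroup (sqs X)

instance mdl (X : Type) : Module ℂ (L2 X) := Submodule.module (sqs X)

/-- the value of a square-summable function at a point -/
def ev {X : Type} (f : L2 X) (x : X) : ℂ := f.1 x

theorem ev_ext {X : Type} {f g : L2 X} (h : ∀ x, ev f x = ev g x) : f = g :=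
  Subtype.ext (funext h)

theorem ev_summable {X : Type} (f : L2 X) : Summable fun x => ‖ev f x‖ ^ 2 := f.2

/-- a square-summable function as an element of `ℓ²(X)` -/
def mk {X : Type} (f : X → ℂ) (h : Summable fun x => ‖f x‖ ^ 2) : L2 X := ⟨f, h⟩

theorem ev_mk {X : Type} (f : X → ℂ) (h : Summable fun x => ‖f x‖ ^ 2) (x : X) :
    ev (mk f h) x = f x := rfl

theorem ev_add {X : Type} (f g : L2 X) (x : X) : ev (f + g) x = ev f x + ev g x := rfl

theorem ev_sub {X : Type} (f g : L2 X) (x : X) : ev (f - g) x = ev f x - ev g x := rfl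

theorem ev_neg {X : Type} (f : L2 X) (x : X) : ev (-f) x = - ev f x := rfl

theorem ev_smul {X : Type} (c : ℂ) (f : L2 X) (x : X) : ev (c • f) x = c * ev f x := rfl

theorem ev_zero {X : Type} (x : X) : ev (0 : L2 X) x = 0 := rfl

theorem trans_sq {Γ : Type} [Group Γ] (g : Γ) (f : L2 Γ) :
    Summable fun x => ‖ev f (g⁻¹ * x)‖ ^ 2 :=
  (Equiv.mulLeft g⁻¹).summable_iff (f := fun x => ‖f.1 x‖ ^ 2) |>.2 f.2

/-- left translation: `(lt g f)(x) = f (g⁻¹ x)` -/
def lt {Γ : Type} [Group Γ] (g : Γ) : L2 Γ →ₗ[ℂ] L2 Γ where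
  toFun f := mk (fun x => ev f (g⁻¹ * x)) (trans_sq g f)
  map_add' _ _ := rfl
  map_smul' _ _ := rfl

theorem lt_apply {Γ : Type} [Group Γ] (g : Γ) (f : L2 Γ) (x : Γ) :
    ev (lt g f) x = ev f (g⁻¹ * x) := rfl

theorem lt_one {Γ : Type} [Group Γ] : lt (1 : Γ) = 1 := by
  refine LinearMap.ext fun f => ev_ext fun x => ?_
  rw [lt_apply, inv_one, one_mul]
  rfl

theorem lt_mul {Γ : Type} [Group Γ] (g h : Γ) : lt (g * h) = lt g * lt h := by
  refine LinearMap.ext fun f => ev_ext fun x => ?_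
  show ev f ((g * h)⁻¹ * x) = ev f (h⁻¹ * (g⁻¹ * x))
  rw [mul_inv_rev, mul_assoc]

/-- the left regular representation of `Γ` on `ℓ²(Γ)` -/
def reg (Γ : Type) [Group Γ] : Representation ℂ Γ (L2 Γ) where
  toFun := lt
  map_one' := lt_one
  map_mul' := lt_mul

/-- `ℓ²(Γ)` as an object of the category of representations of `Γ` -/
def L2Rep (Γ : Type) [Group Γ] : Rep.{0} ℂ Γ := Rep.of (reg Γ)

/-! ### The von Neumann algebra, the extended dimension, `L²`-Betti numbers -/

/-- the square of the `ℓ²`-norm -/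
def nsq {X : Type} (f : L2 X) : ℝ := ∑' x, ‖ev f x‖ ^ 2

theorem nsq_nonneg {X : Type} (f : L2 X) : 0 ≤ nsq f := tsum_nonneg fun _ => by positivity

theorem nsq_add {X : Type} (f g : L2 X) : nsq (f + g) ≤ 2 * nsq f + 2 * nsq g := by
  have h1 := ev_summable (f + g)
  have hf := ev_summable f
  have hg := ev_summable g
  unfold nsq
  rw [← tsum_mul_left, ← tsum_mul_left, ← (hf.mul_left 2).tsum_add (hg.mul_left 2)]
  refine h1.tsum_le_tsum (fun x => ?_) ((hf.mul_left 2).add (hg.mul_left 2))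
  have h2 : ‖ev f x + ev g x‖ ≤ ‖ev f x‖ + ‖ev g x‖ := norm_add_le _ _
  have h3 : 0 ≤ ‖ev f x + ev g x‖ := norm_nonneg _
  rw [ev_add]
  nlinarith [sq_nonneg (‖ev f x‖ - ‖ev g x‖)]

theorem nsq_smul {X : Type} (c : ℂ) (f : L2 X) : nsq (c • f) = ‖c‖ ^ 2 * nsq f := by
  unfold nsq
  rw [← tsum_mul_left]
  refine tsum_congr fun x => ?_
  rw [ev_smul, norm_mul, mul_pow]

/-- `T` is bounded and commutes with the left translations -/
def InVN {Γ : Type} [Group Γ] (T : L2 Γ →ₗ[ℂ] L2 Γ) : Prop :=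
  (∀ g f, T (lt g f) = lt g (T f)) ∧ ∃ C : ℝ, ∀ f, nsq (T f) ≤ C * nsq f

theorem InVN.mul {Γ : Type} [Group Γ] {S T : L2 Γ →ₗ[ℂ] L2 Γ} (hS : InVN S) (hT : InVN T) :
    InVN (S ∘ₗ T) := by
  obtain ⟨h1, C, h2⟩ := hS
  obtain ⟨h3, D, h4⟩ := hT
  refine ⟨fun g f => ?_, |C| * |D|, fun f => ?_⟩
  · show S (T (lt g f)) = lt g (S (T f))
    rw [h3, h1]
  · show nsq (S (T f)) ≤ _
    calc nsq (S (T f)) ≤ C * nsq (T f) := h2 _
      _ ≤ |C| * nsq (T f) := mul_le_mul_of_nonneg_right (le_abs_self C) (nsq_nonneg _)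
      _ ≤ |C| * (|D| * nsq f) := by
          refine mul_le_mul_of_nonneg_left ((h4 f).trans ?_) (abs_nonneg C)
          exact mul_le_mul_of_nonneg_right (le_abs_self D) (nsq_nonneg _)
      _ = |C| * |D| * nsq f := by ring

theorem InVN.add {Γ : Type} [Group Γ] {S T : L2 Γ →ₗ[ℂ] L2 Γ} (hS : InVN S) (hT : InVN T) :
    InVN (S + T) := by
  obtain ⟨h1, C, h2⟩ := hS
  obtain ⟨h3, D, h4⟩ := hT
  refine ⟨fun g f => ?_, 2 * C + 2 * D, fun f => ?_⟩
  · show S (lt g f) + T (lt g f) = lt g (S f + T f)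
    rw [h3, h1, map_add]
  · have h5 : nsq ((S + T) f) ≤ 2 * nsq (S f) + 2 * nsq (T f) := nsq_add (S f) (T f)
    have := h2 f
    have := h4 f
    linarith

theorem InVN.one {Γ : Type} [Group Γ] : InVN (1 : Module.End ℂ (L2 Γ)) :=
  ⟨fun _ _ => rfl, 1, fun f => by rw [one_mul]; exact le_refl _⟩

theorem InVN.zero {Γ : Type} [Group Γ] : InVN (0 : Module.End ℂ (L2 Γ)) :=
  ⟨fun g _ => (map_zero (lt g)).symm, 0, fun f => by
    rw [zero_mul]
    show nsq (0 : L2 Γ) ≤ 0
    have := nsq_smul (0 : ℂ) (0 : L2 Γ)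
    rw [smul_zero, norm_zero] at this
    rw [this]
    norm_num⟩

theorem InVN.neg {Γ : Type} [Group Γ] {S : L2 Γ →ₗ[ℂ] L2 Γ} (hS : InVN S) : InVN (-S) := by
  obtain ⟨h1, C, h2⟩ := hS
  refine ⟨fun g f => ?_, C, fun f => ?_⟩
  · show - S (lt g f) = lt g (- S f)
    rw [h1, map_neg]
  · have h3 : nsq ((-S) f) = nsq (S f) := by
      unfold nsq
      refine tsum_congr fun x => ?_
      rw [show (-S) f = -(S f) from rfl, ev_neg, norm_neg]
    rw [h3]
    exact h2 f

/-- The group von Neumann algebra of `Γ` as a subring of the ring of all linear operators on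
`ℓ²(Γ)`: the bounded operators that commute with the left translations. -/
def vNsub (Γ : Type) [Group Γ] : Subring (Module.End ℂ (L2 Γ)) where
  carrier := {T | InVN T}
  mul_mem' := InVN.mul
  one_mem' := InVN.one
  add_mem' := InVN.add
  zero_mem' := InVN.zero
  neg_mem' := InVN.neg

/-- the group von Neumann algebra `N(Γ)` -/
def VN (Γ : Type) [Group Γ] : Type := vNsub Γ

instance vnRing (Γ : Type) [Group Γ] : Ring (VN Γ) := Subring.toRing (vNsub Γ)

/-- the operator on `ℓ²(Γ)` of an element of the von Neumann algebra -/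
def op {Γ : Type} [Group Γ] (T : VN Γ) : L2 Γ →ₗ[ℂ] L2 Γ := T.1

theorem op_lt {Γ : Type} [Group Γ] (T : VN Γ) (g : Γ) (f : L2 Γ) :
    op T (lt g f) = lt g (op T f) := T.2.1 g f

theorem delta_sq (Γ : Type) [Group Γ] [DecidableEq Γ] :
    Summable fun x : Γ => ‖(if x = 1 then (1 : ℂ) else 0)‖ ^ 2 := by
  refine summable_of_ne_finset_zero (s := {1}) (fun x hx => ?_)
  rw [Finset.mem_singleton] at hx
  simp [hx]

open scoped Classical in
/-- the characteristic function of the identity element -/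
def delta (Γ : Type) [Group Γ] : L2 Γ := mk (fun x => if x = 1 then 1 else 0) (delta_sq Γ)

/-- the von Neumann trace `τ(T) = (T δ_1)(1)` -/
def tr {Γ : Type} [Group Γ] (T : VN Γ) : ℂ := ev (op T (delta Γ)) 1

/-- The extended von Neumann dimension (Lueck) of a module `M` over `R = N(Γ)`, where `act T x` is
the product of `T` in `R` with `x` in `M`: the supremum of the dimensions of the finitely generated
projective submodules of `M`.  A homomorphism from the projective module `R^m p`, where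
`p = (p i j)` is an idempotent `m × m` matrix over `R`, to `M` is the same thing as a tuple `y` in
`M` with `y = p y` (it sends `r p` to `∑ r_i y_i`), and the dimension of `R^m p` is
`∑ τ(p_ii)`. -/
def L2dim {Γ : Type} [Group Γ] {M : Type} [AddCommGroup M] (act : VN Γ → M → M) : EReal :=
  sSup {t : EReal | ∃ (m : ℕ) (p : Fin m → Fin m → VN Γ) (y : Fin m → M),
    (∀ i k, ∑ j, p i j * p j k = p i k) ∧ (∀ i, y i = ∑ j, act (p i j) (y j)) ∧
    (∀ r : Fin m → VN Γ, ∑ i, act (r i) (y i) = 0 → ∀ k, ∑ i, r i * p i k = 0) ∧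
    t = (((∑ i, tr (p i i)).re : ℝ) : EReal)}

theorem endo_aux {Γ : Type} [Group Γ] (T : VN Γ) (g : Γ) :
    op T ∘ₗ reg Γ g = reg Γ g ∘ₗ op T :=
  LinearMap.ext fun f => op_lt T g f

/-- an element of the von Neumann algebra as an endomorphism of the representation `ℓ²(Γ)` -/
def endo {Γ : Type} [Group Γ] (T : VN Γ) : L2Rep Γ ⟶ L2Rep Γ :=
  Rep.ofHom ⟨op T, endo_aux T⟩

/-- `H_k(Γ; ℓ²Γ)` -/
abbrev HH (Γ : Type) [Group Γ] (k : ℕ) : Type := groupHomology (L2Rep Γ) k

/-- `H^k(Γ; ℓ²Γ)` -/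
abbrev HC (Γ : Type) [Group Γ] (k : ℕ) : Type := groupCohomology (L2Rep Γ) k

/-- the map on `H_k(Γ; ℓ²Γ)` induced by an element of the von Neumann algebra -/
def mapH {Γ : Type} [Group Γ] (k : ℕ) (T : VN Γ) :
    groupHomology (L2Rep Γ) k ⟶ groupHomology (L2Rep Γ) k :=
  (groupHomology.functor ℂ Γ k).map (endo T)

/-- the map on `H^k(Γ; ℓ²Γ)` induced by an element of the von Neumann algebra -/
def mapC {Γ : Type} [Group Γ] (k : ℕ) (T : VN Γ) :
    groupCohomology (L2Rep Γ) k ⟶ groupCohomology (L2Rep Γ) k :=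
  (groupCohomology.functor ℂ Γ k).map (endo T)

/-- the action of the von Neumann algebra on `H_k(Γ; ℓ²Γ)` -/
def actH {Γ : Type} [Group Γ] (k : ℕ) (T : VN Γ) (x : HH Γ k) : HH Γ k := (mapH k T).hom x

/-- the action of the von Neumann algebra on `H^k(Γ; ℓ²Γ)` -/
def actC {Γ : Type} [Group Γ] (k : ℕ) (T : VN Γ) (x : HC Γ k) : HC Γ k := (mapC k T).hom x

/-- the `k`-th `L²`-Betti number `b_k^{(2)}(Γ) = dim H_k(Γ; ℓ²Γ)` -/
def b2 (Γ : Type) [Group Γ] (k : ℕ) : EReal := L2dim (actH (Γ := Γ) k)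

/-- the cohomological `L²`-Betti number `dim H^k(Γ; ℓ²Γ)` -/
def b2co (Γ : Type) [Group Γ] (k : ℕ) : EReal := L2dim (actC (Γ := Γ) k)

/-! ### Simplicial complexes and compactly supported cohomology -/

/-- The `2`-skeleton of a simplicial complex with vertex set `V`: a graph and a set of triangles. -/
structure Cx (V : Type) where
  /-- the `1`-skeleton -/
  graph : SimpleGraph V
  /-- `tri u v w`: the vertices `u, v, w` span a `2`-simplex -/
  tri : V → V → V → Prop
  tri_adj : ∀ u v w, tri u v w → graph.Adj u v ∧ graph.Adj v w ∧ graph.Adj u w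

/-- closed simplicial `1`-cochains with values in `A` -/
def Closed1 {V : Type} (K : Cx V) {A : Type} [AddCommGroup A] (c : V → V → A) : Prop :=
  (∀ u v, ¬ K.graph.Adj u v → c u v = 0) ∧ (∀ u v, c v u = - c u v) ∧
    ∀ u v w, K.tri u v w → c u v + c v w = c u w

/-- `c` is the coboundary of `f` -/
def IsD {V : Type} (K : Cx V) {A : Type} [AddCommGroup A] (f : V → A) (c : V → V → A) : Prop :=
  ∀ u v, K.graph.Adj u v → c u v = f v - f u

/-- `H¹(K; ℂ) = 0` -/
def H1Zero {V : Type} (K : Cx V) : Prop :=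
  ∀ c : V → V → ℂ, Closed1 K c → ∃ f : V → ℂ, IsD K f c

/-- `H¹_c(K; ℂ) = 0`: cohomology with compact supports -/
def H1cZero {V : Type} (K : Cx V) : Prop :=
  ∀ c : V → V → ℂ, Closed1 K c → {p : V × V | c p.1 p.2 ≠ 0}.Finite →
    ∃ f : V → ℂ, {v | f v ≠ 0}.Finite ∧ IsD K f c

/-- `K` is connected and locally finite, and `G` acts on `K` by simplicial automorphisms with finite
vertex stabilisers. -/
structure ProperAction {V : Type} (K : Cx V) (G : Type) [Group G] [MulAction G V] : Prop where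
  conn : K.graph.Connected
  locfin : ∀ u, {v | K.graph.Adj u v}.Finite
  adj : ∀ (g : G) (u v : V), K.graph.Adj u v → K.graph.Adj (g • u) (g • v)
  tri : ∀ (g : G) (u v w : V), K.tri u v w → K.tri (g • u) (g • v) (g • w)
  stab : ∀ v : V, {g : G | g • v = v}.Finite

section

variable {V : Type} (K : Cx V) (H : Type) [Group H] [MulAction H V]

/-- `f` is a compactly supported `0`-cochain of the quotient by `H` with coefficients in `ℓ²(H)`: an
equivariant function on the vertices that vanishes outside of finitely many orbits. -/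
def IsC0 (f : V → L2 H) : Prop :=
  (∀ (h : H) v, f (h • v) = lt h (f v)) ∧
    ∃ F : Finset V, ∀ v, f v ≠ 0 → ∃ h : H, ∃ x ∈ F, v = h • x

/-- `c` is a compactly supported closed `1`-cochain of `K / H` with coefficients in `ℓ²(H)`. -/
def IsZ1 (c : V → V → L2 H) : Prop :=
  Closed1 K c ∧ (∀ (h : H) u v, c (h • u) (h • v) = lt h (c u v)) ∧
    ∃ F : Finset V, ∀ u v, c u v ≠ 0 → ∃ h : H, ∃ x ∈ F, u = h • x

theorem IsC0.add {f g : V → L2 H} (hf : IsC0 H f) (hg : IsC0 H g) : IsC0 H (f + g) := by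
  classical
  obtain ⟨h1, F1, h2⟩ := hf
  obtain ⟨h3, F2, h4⟩ := hg
  refine ⟨fun h v => ?_, F1 ∪ F2, fun v hv => ?_⟩
  · show f (h • v) + g (h • v) = lt h (f v + g v)
    rw [h1, h3, map_add]
  · by_cases hf : f v = 0
    · have hg : g v ≠ 0 := fun hg => hv (by show f v + g v = 0; rw [hf, hg, add_zero])
      obtain ⟨h, x, hx, hh⟩ := h4 v hg
      exact ⟨h, x, Finset.mem_union_right _ hx, hh⟩
    · obtain ⟨h, x, hx, hh⟩ := h2 v hf
      exact ⟨h, x, Finset.mem_union_left _ hx, hh⟩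

theorem IsC0.zero : IsC0 H (0 : V → L2 H) :=
  ⟨fun h _ => (map_zero (lt h)).symm, ∅, fun _ hv => absurd rfl hv⟩

theorem IsC0.neg {f : V → L2 H} (hf : IsC0 H f) : IsC0 H (-f) := by
  obtain ⟨h1, F1, h2⟩ := hf
  refine ⟨fun h v => ?_, F1, fun v hv => h2 v (fun hf => hv ?_)⟩
  · show - f (h • v) = lt h (- f v)
    rw [h1, map_neg]
  · show - f v = 0
    rw [hf, neg_zero]

theorem IsZ1.add {f g : V → V → L2 H} (hf : IsZ1 K H f) (hg : IsZ1 K H g) :
    IsZ1 K H (f + g) := by
  classical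
  obtain ⟨⟨a1, a2, a3⟩, h1, F1, h2⟩ := hf
  obtain ⟨⟨b1, b2, b3⟩, h3, F2, h4⟩ := hg
  refine ⟨⟨fun u v h => ?_, fun u v => ?_, fun u v w h => ?_⟩, fun h u v => ?_, F1 ∪ F2,
    fun u v hv => ?_⟩
  · show f u v + g u v = 0
    rw [a1 u v h, b1 u v h, add_zero]
  · show f v u + g v u = -(f u v + g u v)
    rw [a2 u v, b2 u v]
    abel
  · show f u v + g u v + (f v w + g v w) = f u w + g u w
    rw [← a3 u v w h, ← b3 u v w h]
    abel
  · show f (h • u) (h • v) + g (h • u) (h • v) = lt h (f u v + g u v)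
    rw [h1, h3, map_add]
  · by_cases hf : f u v = 0
    · have hg : g u v ≠ 0 := fun hg => hv (by show f u v + g u v = 0; rw [hf, hg, add_zero])
      obtain ⟨h, x, hx, hh⟩ := h4 u v hg
      exact ⟨h, x, Finset.mem_union_right _ hx, hh⟩
    · obtain ⟨h, x, hx, hh⟩ := h2 u v hf
      exact ⟨h, x, Finset.mem_union_left _ hx, hh⟩

theorem IsZ1.zero : IsZ1 K H (0 : V → V → L2 H) :=
  ⟨⟨fun _ _ _ => rfl, fun _ _ => (neg_zero).symm, fun _ _ _ _ => add_zero _⟩,
    fun h _ _ => (map_zero (lt h)).symm, ∅, fun _ _ hv => absurd rfl hv⟩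

theorem IsZ1.neg {f : V → V → L2 H} (hf : IsZ1 K H f) : IsZ1 K H (-f) := by
  obtain ⟨⟨a1, a2, a3⟩, h1, F1, h2⟩ := hf
  refine ⟨⟨fun u v h => ?_, fun u v => ?_, fun u v w h => ?_⟩, fun h u v => ?_, F1,
    fun u v hv => h2 u v (fun hf => hv ?_)⟩
  · show - f u v = 0
    rw [a1 u v h, neg_zero]
  · show - f v u = -(- f u v)
    rw [a2 u v]
  · show - f u v + - f v w = - f u w
    rw [← a3 u v w h]
    abel
  · show - f (h • u) (h • v) = lt h (- f u v)
    rw [h1, map_neg]
  · show - f u v = 0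
    rw [hf, neg_zero]

/-- `H⁰_c(K / H; ℓ²H)`: the compactly supported locally constant `0`-cochains -/
def H0c : AddSubgroup (V → L2 H) where
  carrier := {f | IsC0 H f ∧ ∀ u v, K.graph.Adj u v → f u = f v}
  zero_mem' := ⟨IsC0.zero H, fun _ _ _ => rfl⟩
  add_mem' := fun hf hg => ⟨hf.1.add H hg.1, fun u v h =>
    congrArg₂ (· + ·) (hf.2 u v h) (hg.2 u v h)⟩
  neg_mem' := fun hf => ⟨hf.1.neg H, fun u v h => congrArg (- ·) (hf.2 u v h)⟩

/-- the group of the compactly supported closed `1`-cochains, as a subgroup -/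
def Z1sub : AddSubgroup (V → V → L2 H) where
  carrier := {c | IsZ1 K H c}
  zero_mem' := IsZ1.zero K H
  add_mem' := IsZ1.add K H
  neg_mem' := IsZ1.neg K H

/-- the group of the compactly supported closed `1`-cochains -/
def Z1c : Type := Z1sub K H

instance z1cGroup : AddCommGroup (Z1c K H) := AddSubgroup.toAddCommGroup (Z1sub K H)

/-- the values of a closed cochain -/
def val {K : Cx V} {H : Type} [Group H] [MulAction H V] (c : Z1c K H) (u v : V) : L2 H := c.1 u v

theorem val_mem {K : Cx V} {H : Type} [Group H] [MulAction H V] (c : Z1c K H) :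
    IsZ1 K H (val c) := c.2

theorem val_ext {K : Cx V} {H : Type} [Group H] [MulAction H V] {c d : Z1c K H}
    (h : ∀ u v, val c u v = val d u v) : c = d :=
  Subtype.ext (funext fun u => funext fun v => h u v)

theorem val_add {K : Cx V} {H : Type} [Group H] [MulAction H V] (c d : Z1c K H) (u v : V) :
    val (c + d) u v = val c u v + val d u v := rfl

theorem val_neg {K : Cx V} {H : Type} [Group H] [MulAction H V] (c : Z1c K H) (u v : V) :
    val (-c) u v = - val c u v := rfl

/-- a closed cochain with given values -/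
def mkZ (c : V → V → L2 H) (hc : IsZ1 K H c) : Z1c K H := ⟨c, hc⟩

theorem isD_add {f g : V → L2 H} {c d : V → V → L2 H} (h1 : IsD K f c) (h2 : IsD K g d) :
    IsD K (f + g) (c + d) := fun u v h => by
  show c u v + d u v = f v + g v - (f u + g u)
  rw [h1 u v h, h2 u v h]
  abel

theorem isD_neg {f : V → L2 H} {c : V → V → L2 H} (h1 : IsD K f c) :
    IsD K (-f) (-c) := fun u v h => by
  show - c u v = - f v - - f u
  rw [h1 u v h]
  abel

/-- the group of the coboundaries of compactly supported `0`-cochains -/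
def B1c : AddSubgroup (Z1c K H) where
  carrier := {c | ∃ f, IsC0 H f ∧ IsD K f (val c)}
  zero_mem' := ⟨0, IsC0.zero H, fun _ _ _ => (sub_zero _).symm⟩
  add_mem' := fun ⟨f, hf, hc⟩ ⟨g, hg, hd⟩ => ⟨f + g, hf.add H hg, isD_add K H hc hd⟩
  neg_mem' := fun ⟨f, hf, hc⟩ => ⟨-f, hf.neg H, isD_neg K H hc⟩

/-- `H¹_c(K / H; ℓ²H)` -/
def H1c : Type := Z1c K H ⧸ B1c K H

instance h1cGroup : AddCommGroup (H1c K H) := QuotientAddGroup.Quotient.addCommGroup (B1c K H)

theorem opZ_mem (T : VN H) {c : V → V → L2 H} (hc : IsZ1 K H c) :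
    IsZ1 K H (fun u v => op T (c u v)) := by
  obtain ⟨⟨a1, a2, a3⟩, h1, F, hF⟩ := hc
  refine ⟨⟨fun u v h => ?_, fun u v => ?_, fun u v w h => ?_⟩, fun g u v => ?_, F,
    fun u v h => hF u v (fun h0 => h ?_)⟩
  · show op T (c u v) = 0
    rw [a1 u v h, map_zero]
  · show op T (c v u) = - op T (c u v)
    rw [a2 u v, map_neg]
  · show op T (c u v) + op T (c v w) = op T (c u w)
    rw [← a3 u v w h, map_add]
  · show op T (c (g • u) (g • v)) = lt g (op T (c u v))
    rw [h1, op_lt]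
  · show op T (c u v) = 0
    rw [h0, map_zero]

/-- the action of the von Neumann algebra on closed cochains -/
def opZ (T : VN H) : Z1c K H →+ Z1c K H where
  toFun c := mkZ K H (fun u v => op T (val c u v)) (opZ_mem K H T (val_mem c))
  map_zero' := val_ext fun _ _ => map_zero (op T)
  map_add' _ _ := val_ext fun _ _ => map_add (op T) _ _

theorem opZ_le (T : VN H) : B1c K H ≤ (B1c K H).comap (opZ K H T) := by
  rintro c ⟨f, ⟨hf1, F, hf2⟩, hc⟩
  refine ⟨fun v => op T (f v), ⟨fun g v => ?_, F, fun v h => hf2 v (fun h0 => h ?_)⟩,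
    fun u v h => ?_⟩
  · show op T (f (g • v)) = lt g (op T (f v))
    rw [hf1 g v, op_lt]
  · show op T (f v) = 0
    rw [h0, map_zero]
  · show op T (val c u v) = op T (f v) - op T (f u)
    rw [hc u v h, map_sub]

/-- the action of the von Neumann algebra on `H¹_c(K / H; ℓ²H)` -/
def actK (T : VN H) : H1c K H →+ H1c K H :=
  QuotientAddGroup.map (B1c K H) (B1c K H) (opZ K H T) (opZ_le K H T)

/-- Poincare duality for the `n`-dimensional quotient `K / H` with coefficients in `ℓ²(H)`, in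
cohomological degrees `≤ 1`: `H_n(H; ℓ²H) ≅ H⁰_c(K / H; ℓ²H)` and
`H_{n-1}(H; ℓ²H) ≅ H¹_c(K / H; ℓ²H)`, the latter compatible with the actions of the von Neumann
algebra up to a trace-preserving automorphism `θ` (the identity if `K / H` is orientable; otherwise
`θ` is the twist by the orientation character), and `H_j(H; ℓ²H) = 0` for `j > n`. -/
structure DualL2 (n : ℕ) : Prop where
  top : Nonempty (HH H n ≃+ H0c K H)
  next : ∃ (θ : VN H ≃+* VN H) (e : HH H (n - 1) ≃+ H1c K H), (∀ T, tr (θ T) = tr T) ∧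
    ∀ (T : VN H) (x : HH H (n - 1)), e (actH (n - 1) T x) = actK K H (θ T) (e x)
  above : ∀ j, n < j → Subsingleton (HH H j)

/-- `W` is a nonempty connected set of vertices outside of the orbits of `F`. -/
def Outside (F : Finset V) (W : Set V) : Prop :=
  W.Nonempty ∧ (K.graph.induce W).Connected ∧ ∀ v ∈ W, ¬ ∃ h : H, ∃ x ∈ F, v = h • x

/-- `h` maps the set `W` of vertices onto itself -/
def Fixes {H : Type} [Group H] [MulAction H V] (W : Set V) (h : H) : Prop :=
  ∀ v, h • v ∈ W ↔ v ∈ W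

/-- Outside of every compact subset of the quotient there is a connected set `E` such that the
restriction `H¹(H; ℓ²H) → H¹(L; ℓ²H)` to the image `L` of `π₁(E)` in `H` (the stabiliser of a lift
`W` of `E`) is injective. -/
def EndRest : Prop :=
  ∀ F : Finset V, ∃ W : Set V, Outside K H F W ∧
    ∀ b : H → L2 H, (∀ g h, b (g * h) = lt g (b h) + b g) → (∀ l : H, Fixes W l → b l = 0) →
      ∃ η : L2 H, ∀ g, b g = lt g η - η

/-- Outside of every compact subset of the quotient there is a connected set `E` such that the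
image `L` of `π₁(E)` in `H` satisfies: `L ∩ g L g⁻¹` is infinite for every `g` in `H`. -/
def EndSN : Prop :=
  ∀ F : Finset V, ∃ W : Set V, Outside K H F W ∧
    ∀ g : H, {l : H | Fixes W l ∧ Fixes W (g⁻¹ * l * g)}.Infinite

/-- `H⁰_c(K / H; ℓ²H) = 0` -/
def H0cTriv : Prop := Subsingleton (H0c K H)

/-- `H¹_c(K / H; ℓ²H) = 0` -/
def H1cTriv : Prop := Subsingleton (H1c K H)

/-- `H¹_c(K / H; ℓ²H)` embeds in `H¹(H; ℓ²H)`, compatibly with the actions of the von Neumann
algebra. -/
def Embeds : Prop :=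
  ∃ J : H1c K H →+ HC H 1, Function.Injective J ∧ ∀ (T : VN H) x, J (actK K H T x) = actC 1 T (J x)

/-- The action of `H` on `K` is the restriction of an action of a larger group `G`, by simplicial
automorphisms and with finite vertex stabilisers, such that `H¹(G; ℓ²G) = 0`: the quotient `K / H`
covers `K / G`. -/
def Covers : Prop :=
  ∃ (G : Type) (_ : Group G) (_ : MulAction G V) (ι : H →* G), Function.Injective ι ∧
    (∀ h (v : V), ι h • v = h • v) ∧ ProperAction K G ∧ Subsingleton (HC G 1)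

end

end

end Pool.Agent.Y343.LC
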