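import Pool.Agent.Y343.LB.Coh
import Pool.Agent.Y343.LC.Stm

/-!
Vanishing of the compactly supported cohomology in degrees `0` and `1`.
-/

set_option autoImplicit false

namespace Pool.Agent.Y343.LC

open CategoryTheory Representation
open Pool.Agent.Y343.LB (l2 mem_l2 C0 FS l2_C0 h1_sub Phi_range Phi_l2 l2_coset)

noncomputable section

variable {V : Type}

theorem conn_const (K : Cx V) (hc : K.graph.Connected) {A : Type} (f : V → A)
    (h : ∀ u v, K.graph.Adj u v → f u = f v) (u v : V) : f u = f v := by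
  obtain ⟨p⟩ := hc.preconnected u v
  induction p with
  | nil => rfl
  | cons hadj _ ih => exact (h _ _ hadj).trans ih

theorem conn_closed (K : Cx V) (hc : K.graph.Connected) (W : Set V)
    (h : ∀ u v, K.graph.Adj u v → u ∈ W → v ∈ W) (u v : V) (hu : u ∈ W) : v ∈ W := by
  obtain ⟨p⟩ := hc.preconnected u v
  induction p with
  | nil => exact hu
  | cons hadj _ ih => exact ih (h _ _ hadj hu)

theorem l2_of_FS {G : Type} [Group G] (S : Subgroup G) (ξ : G → ℂ) (h1 : FS S ξ)
    (h2 : ∀ g : G, (fun s : S => ξ (g * s)) ∈ l2 S) : ξ ∈ l2 G := by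
  obtain ⟨v, hv⟩ := Phi_range S ξ h1 h2
  rw [← hv]
  exact Phi_l2 S v

/-- differences of `φ` along edges are square-summable, then so are all differences -/
theorem path_l2 (K : Cx V) (hc : K.graph.Connected) (Q : Type) [Group Q] [MulAction Q V]
    (φ : V → ℂ)
    (h : ∀ u v, K.graph.Adj u v → (fun x : Q => φ (x⁻¹ • v) - φ (x⁻¹ • u)) ∈ l2 Q) (u v : V) :
    (fun x : Q => φ (x⁻¹ • v) - φ (x⁻¹ • u)) ∈ l2 Q := by
  obtain ⟨p⟩ := hc.preconnected u v
  induction p with
  | nil =>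
    simp only [sub_self]
    exact (l2 Q).zero_mem
  | @cons a b c hadj _ ih =>
    have h1 := (l2 Q).add_mem ih (h a b hadj)
    convert h1 using 1
    funext x
    simp

theorem ev_l2 {X : Type} (f : L2 X) : ev f ∈ l2 X := f.2

/-- if `H¹(Q; ℓ²Q) = 0` then a constant can be subtracted from `φ` so that it becomes
square-summable on the orbits -/
theorem normalize (K : Cx V) (hc : K.graph.Connected) (Q : Type) [Group Q] [MulAction Q V]
    (hQ : Subsingleton (HC Q 1)) (φ : V → ℂ)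
    (h : ∀ u v, K.graph.Adj u v → (fun x : Q => φ (x⁻¹ • v) - φ (x⁻¹ • u)) ∈ l2 Q) :
    ∃ k : ℂ, ∀ v, (fun x : Q => φ (x⁻¹ • v) - k) ∈ l2 Q := by
  obtain ⟨v0⟩ := hc.nonempty
  have hp := path_l2 K hc Q φ h
  have hQ' := (h1_sub (L2Rep Q)).1 hQ
  obtain ⟨η, hη⟩ := hQ' (fun g => mk (fun x => φ (x⁻¹ • g • v0) - φ (x⁻¹ • v0)) (hp v0 (g • v0)))
    (fun g g' => ev_ext fun x => by
      show φ (x⁻¹ • (g * g') • v0) - φ (x⁻¹ • v0) =
        (φ ((g⁻¹ * x)⁻¹ • g' • v0) - φ ((g⁻¹ * x)⁻¹ • v0)) + (φ (x⁻¹ • g • v0) - φ (x⁻¹ • v0))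
      have e1 : (g⁻¹ * x)⁻¹ • g' • v0 = x⁻¹ • (g * g') • v0 := by
        simp only [smul_smul, mul_inv_rev, inv_inv, mul_assoc]
      have e2 : (g⁻¹ * x)⁻¹ • v0 = x⁻¹ • g • v0 := by
        simp only [smul_smul, mul_inv_rev, inv_inv]
      rw [e1, e2]
      ring)
  let η' : L2 Q := η
  have h1 : ∀ x : Q, φ (x⁻¹ • v0) - (φ v0 - ev η' 1) = ev η' x := by
    intro x
    have h2 := congrArg (fun f : L2 Q => ev f x) (hη x)
    have h3 : φ (x⁻¹ • x • v0) - φ (x⁻¹ • v0) = ev η' (x⁻¹ * x) - ev η' x := h2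
    rw [inv_smul_smul, inv_mul_cancel] at h3
    linear_combination -h3
  refine ⟨φ v0 - ev η' 1, fun v => ?_⟩
  have h4 := (l2 Q).add_mem (hp v0 v) (ev_l2 η')
  convert h4 using 1
  funext x
  show φ (x⁻¹ • v) - (φ v0 - ev η' 1) = (φ (x⁻¹ • v) - φ (x⁻¹ • v0)) + ev η' x
  rw [← h1 x]
  ring

/-- level sets of a function with controlled differences are finite -/
theorem level_finite (K : Cx V) (H : Type) [Group H] [MulAction H V] [Infinite H]
    (hA : ProperAction K H) (h1c : H1cZero K) (φ : V → ℂ) (F : Finset V)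
    (hF : ∀ u v, K.graph.Adj u v → φ u ≠ φ v → ∃ h : H, ∃ x ∈ F, u = h • x)
    (hl : ∀ v, (fun x : H => φ (x⁻¹ • v)) ∈ l2 H) (b : ℝ) (hb : 0 < b) :
    {v | b ≤ ‖φ v‖}.Finite := by
  classical
  -- each orbit meets the level set in a finite set
  have horb : ∀ v, {w | (∃ h : H, w = h • v) ∧ b ≤ ‖φ w‖}.Finite := by
    intro v
    refine ((l2_C0 (hl v) b hb).image (fun x : H => x⁻¹ • v)).subset ?_
    rintro w ⟨⟨h, rfl⟩, hw⟩
    refine ⟨h⁻¹, ?_, by simp⟩
    simpa using hw
  have hAF : {w | (∃ h : H, ∃ x ∈ F, w = h • x) ∧ b ≤ ‖φ w‖}.Finite := by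
    have : {w | (∃ h : H, ∃ x ∈ F, w = h • x) ∧ b ≤ ‖φ w‖} ⊆
        ⋃ x ∈ (F : Set V), {w | (∃ h : H, w = h • x) ∧ b ≤ ‖φ w‖} := by
      rintro w ⟨⟨h, x, hx, hw⟩, hw'⟩
      simp only [Set.mem_iUnion]
      exact ⟨x, hx, ⟨h, hw⟩, hw'⟩
    exact (Set.Finite.biUnion F.finite_toSet (fun x _ => horb x)).subset this
  let χ : V → ℂ := fun v => if b ≤ ‖φ v‖ then 1 else 0
  let d : V → V → ℂ := fun u v => if K.graph.Adj u v then χ v - χ u else 0
  have hd : Closed1 K d := by
    refine ⟨fun u v h => by simp [d, h], fun u v => ?_, fun u v w h => ?_⟩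
    · by_cases h : K.graph.Adj u v
      · have h' := h.symm
        simp [d, h, h']
      · have h' : ¬ K.graph.Adj v u := fun h' => h h'.symm
        simp [d, h, h']
    · obtain ⟨h1, h2, h3⟩ := K.tri_adj u v w h
      simp [d, h1, h2, h3]
  have hdf : {p : V × V | d p.1 p.2 ≠ 0}.Finite := by
    have hsub : {p : V × V | d p.1 p.2 ≠ 0} ⊆
        (⋃ u ∈ {w | (∃ h : H, ∃ x ∈ F, w = h • x) ∧ b ≤ ‖φ w‖},
          (fun v => (u, v)) '' {v | K.graph.Adj u v}) ∪
        (⋃ u ∈ {w | (∃ h : H, ∃ x ∈ F, w = h • x) ∧ b ≤ ‖φ w‖},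
          (fun v => (v, u)) '' {v | K.graph.Adj u v}) := by
      rintro ⟨u, v⟩ hp
      have hadj : K.graph.Adj u v := by
        by_contra hadj
        exact hp (by simp [d, hadj])
      have hne : χ u ≠ χ v := by
        intro heq
        exact hp (by simp [d, heq])
      have hφ : φ u ≠ φ v := fun h => hne (by simp [χ, h])
      by_cases hu : b ≤ ‖φ u‖
      · left
        simp only [Set.mem_iUnion]
        exact ⟨u, ⟨hF u v hadj hφ, hu⟩, v, hadj, rfl⟩
      · right
        have hv : b ≤ ‖φ v‖ := by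
          by_contra hv
          exact hne (by simp [χ, hu, hv])
        simp only [Set.mem_iUnion]
        exact ⟨v, ⟨hF v u hadj.symm (Ne.symm hφ), hv⟩, u, hadj.symm, rfl⟩
    refine Set.Finite.subset ?_ hsub
    exact (Set.Finite.biUnion hAF (fun u _ => (hA.locfin u).image _)).union
      (Set.Finite.biUnion hAF (fun u _ => (hA.locfin u).image _))
  obtain ⟨f, hf, hfd⟩ := h1c d hd hdf
  obtain ⟨v0⟩ := hA.conn.nonempty
  have hconst : ∀ v, χ v - f v = χ v0 - f v0 := by
    intro v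
    refine conn_const K hA.conn (fun v => χ v - f v) (fun u v h => ?_) v v0
    have h1 := hfd u v h
    have h2 : d u v = χ v - χ u := by simp [d, h]
    show χ u - f u = χ v - f v
    rw [h2] at h1
    linear_combination -h1
  by_cases hk : χ v0 - f v0 = 1
  · exfalso
    -- the complement is finite, but the orbit of `v0` is infinite
    have hcof : {v | ¬ b ≤ ‖φ v‖}.Finite := by
      refine hf.subset ?_
      intro v hv hf0
      have h1 := hconst v
      have h2 : χ v = 0 := by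
        have hv' : ¬ b ≤ ‖φ v‖ := hv
        simp [χ, hv']
      rw [hk, h2, hf0] at h1
      norm_num at h1
    have horbit : {w | ∃ h : H, w = h • v0}.Finite := by
      refine ((horb v0).union hcof).subset ?_
      rintro w ⟨h, rfl⟩
      by_cases hw : b ≤ ‖φ (h • v0)‖
      · exact Or.inl ⟨⟨h, rfl⟩, hw⟩
      · exact Or.inr hw
    have hst : ∀ w, {h : H | h • v0 = w}.Finite := by
      intro w
      by_cases hw : ∃ h : H, h • v0 = w
      · obtain ⟨h0, hh0⟩ := hw
        refine ((hA.stab v0).image (fun s : H => h0 * s)).subset ?_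
        intro h hh
        have hs : (h0⁻¹ * h) • v0 = v0 := by
          rw [mul_smul, inv_smul_eq_iff]
          have e1 : h • v0 = w := hh
          rw [e1, hh0]
        exact ⟨_, hs, by simp⟩
      · refine Set.Finite.subset Set.finite_empty ?_
        intro h hh
        exact hw ⟨h, hh⟩
    have huniv : (Set.univ : Set H).Finite := by
      refine (Set.Finite.biUnion horbit (fun w _ => hst w)).subset ?_
      intro h _
      simp only [Set.mem_iUnion]
      exact ⟨h • v0, ⟨h, rfl⟩, rfl⟩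
    exact Set.infinite_univ huniv
  · refine hf.subset ?_
    intro v hv hf0
    apply hk
    have h1 := hconst v
    have h2 : χ v = 1 := by
      have hv' : b ≤ ‖φ v‖ := hv
      simp [χ, hv']
    rw [← h1, h2, hf0, sub_zero]

/-- a function with controlled differences and finite level sets is supported on finitely many
orbits -/
theorem supp_finite (K : Cx V) (H : Type) [Group H] [MulAction H V] (hA : ProperAction K H)
    (φ : V → ℂ) (F : Finset V)
    (hF : ∀ u v, K.graph.Adj u v → φ u ≠ φ v → ∃ h : H, ∃ x ∈ F, u = h • x)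
    (hlev : ∀ b : ℝ, 0 < b → {v | b ≤ ‖φ v‖}.Finite) :
    ∃ F' : Finset V, ∀ v, φ v ≠ 0 → ∃ h : H, ∃ x ∈ F', v = h • x := by
  classical
  let U : ℝ → Set V := fun b => {v | ∃ h : H, b ≤ ‖φ (h • v)‖}
  have hUfin : ∀ b, ∀ hb : 0 < b, ∀ v ∈ U b, ∃ h : H, ∃ x ∈ (hlev b hb).toFinset, v = h • x := by
    rintro b hb v ⟨h, hh⟩
    exact ⟨h⁻¹, h • v, by simpa using hh, by simp⟩
  obtain ⟨b0, hb0, hthr⟩ : ∃ b0 : ℝ, 0 < b0 ∧ ∀ x ∈ F, (∃ h : H, φ (h • x) ≠ 0) → x ∈ U b0 := by
    clear hF hlev hUfin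
    induction F using Finset.induction_on with
    | empty => exact ⟨1, one_pos, fun x hx => absurd hx (Finset.notMem_empty x)⟩
    | insert y F' _ ih =>
      obtain ⟨b1, hb1, h1⟩ := ih
      by_cases hex : ∃ h : H, φ (h • y) ≠ 0
      · obtain ⟨h, hh⟩ := hex
        refine ⟨min b1 ‖φ (h • y)‖, lt_min hb1 (norm_pos_iff.2 hh), ?_⟩
        intro x hx hx'
        rcases Finset.mem_insert.1 hx with rfl | hx
        · exact ⟨h, min_le_right _ _⟩
        · obtain ⟨h2, hh2⟩ := h1 x hx hx'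
          exact ⟨h2, (min_le_left _ _).trans hh2⟩
      · refine ⟨b1, hb1, ?_⟩
        intro x hx hx'
        rcases Finset.mem_insert.1 hx with rfl | hx
        · exact absurd hx' hex
        · exact h1 x hx hx'
  by_cases hall : ∀ b, 0 < b → U b ⊆ U b0
  · refine ⟨(hlev b0 hb0).toFinset, fun v hv => hUfin b0 hb0 v ?_⟩
    refine hall ‖φ v‖ (norm_pos_iff.2 hv) ⟨1, ?_⟩
    rw [one_smul]
  · push Not at hall
    obtain ⟨b, hb, hnot⟩ := hall
    obtain ⟨v1, hv1, hv1'⟩ := Set.not_subset.1 hnot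
    refine ⟨(hlev b hb).toFinset, fun v _ => hUfin b hb v ?_⟩
    have hcl : ∀ u v, K.graph.Adj u v → u ∈ U b \ U b0 → v ∈ U b \ U b0 := by
      rintro u v hadj ⟨⟨h, hh⟩, hu'⟩
      have heq : ∀ g : H, φ (g • u) = φ (g • v) := by
        intro g
        by_contra hne
        obtain ⟨h', x, hx, hx'⟩ := hF (g • u) (g • v) (hA.adj g u v hadj) hne
        have hu : u = (g⁻¹ * h') • x := by
          rw [mul_smul, ← hx', inv_smul_smul]
        have hxU : x ∈ U b0 := by
          refine hthr x hx ⟨h * (g⁻¹ * h'), ?_⟩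
          rw [mul_smul, ← hu]
          intro h0
          rw [h0, norm_zero] at hh
          linarith
        obtain ⟨h2, hh2⟩ := hxU
        apply hu'
        refine ⟨h2 * (g⁻¹ * h')⁻¹, ?_⟩
        rw [hu, smul_smul, inv_mul_cancel_right]
        exact hh2
      refine ⟨⟨h, by rw [← heq]; exact hh⟩, ?_⟩
      rintro ⟨h2, hh2⟩
      exact hu' ⟨h2, by rw [heq]; exact hh2⟩
    exact (conn_closed K hA.conn _ hcl v1 v ⟨hv1, hv1'⟩).1

end

end Pool.Agent.Y343.LC
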